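import Pool.Agent.MP_caba0b_al.H15.SymB
import Pool.Agent.MP_caba0b_al.H16.ExNeg
import Pool.Agent.MP_caba0b_al.H20.StepA
import Pool.Agent.MP_caba0b_al.H39.Pos
import Pool.Agent.MP_caba0b_al.H41.Rep
import Pool.Agent.MP_caba0b_al.H43.Cls
import Pool.Agent.MP_caba0b_al.H43.StepB
import Pool.Agent.MP_caba0b_al.H47.InvAsm
import Pool.Agent.MP_caba0b_al.H53.Gauss
import Pool.Agent.MP_caba0b_al.H6.Equiv
import Pool.Agent.MP_caba0b_al.H66.PW
import Pool.Agent.MP_caba0b_al.H73.Side
import Pool.Agent.MP_caba0b_al.H77.Schur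
import Pool.Agent.MP_caba0b_al.H78.Geom
import Pool.Agent.MP_caba0b_al.H79.LA
import Pool.Agent.MP_caba0b_al.H82.SymA
import Pool.Agent.MP_caba0b_al.H88.Core
import Pool.Agent.MP_caba0b_al.H90.Adapt
import Pool.Agent.MP_caba0b_al.H96.Diag

namespace Pool.Agent.Results.MP_caba0b_al.TorusC4

open Pool.Agent.MP_caba0b_al

universe u

/-- There is a compact group that is an amalgamation base for compact groups while its identity
component is not. -/
theorem result :
    ∃ (A : Type) (_ : Group A) (_ : TopologicalSpace A) (_ : IsTopologicalGroup A)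
      (_ : CompactSpace A) (_ : T2Space A),
      H43.Amalg.{u} A ∧ ¬ H43.Amalg.{u} (Subgroup.connectedComponentOfOne A) := by
  obtain ⟨A, _, _, _, _, _, ι, f, h⟩ := H16.ex
  exact ⟨A, _, _, ‹_›, ‹_›, ‹_›, H39.pos H66.pw (H41.rep H77.schur H6.equiv H96.diag
    (H88.core H82.symA H15.symB (H73.side H82.symA H15.symB H53.gauss)
      (H47.invAsm H43.cls H78.geom (H90.adapt H15.symB) H79.la H20.stepA (H43.stepB H79.la))))
    A ι f h, H16.neg A ι f h⟩

end Pool.Agent.Results.MP_caba0b_al.TorusC4
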